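import Mathlib

/-!
# Frobenius powers of Frobenius closed parameter ideals: the dichotomy by the dimension

In dimension at most one all Frobenius powers of Frobenius closed parameter ideals are Frobenius
closed; in every dimension `d ≥ 2`, every characteristic `p > 0` and over every field of
characteristic `p` there is a local ring with a Frobenius closed parameter ideal none of whose
proper Frobenius powers `I^[p^e]`, `e ≥ 1`, is Frobenius closed.
-/

set_option autoImplicit false

namespace Pool.Agent.Results.MP_a45f4e_ag.DimensionDichotomy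

universe u

/-- The Frobenius power `I^[p^e]`: the ideal generated by the `p^e`-th powers of the elements of
`I`. -/
def FrobPow {R : Type u} [CommRing R] (p e : ℕ) (I : Ideal R) : Ideal R :=
  Ideal.span {b | ∃ a ∈ I, b = a ^ p ^ e}

/-- `I` is Frobenius closed: if `r^(p^e) ∈ I^[p^e]` for some `e` then `r ∈ I`. -/
def FrobClosed {R : Type u} [CommRing R] (p : ℕ) (I : Ideal R) : Prop :=
  ∀ r : R, (∃ e : ℕ, r ^ p ^ e ∈ FrobPow p e I) → r ∈ I

/-- `x_1, …, x_d` is a system of parameters of the local ring `R` of dimension `d`. -/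
def IsParam {R : Type u} [CommRing R] [IsLocalRing R] (d : ℕ) (x : Fin d → R) : Prop :=
  ringKrullDim R = (d : WithBot ℕ∞) ∧
    (Ideal.span (Set.range x)).radical = IsLocalRing.maximalIdeal R

/-! ### general facts -/

section general

variable {R : Type u} [CommRing R]

lemma frobPow_mono {S : Type u} [CommRing S] (f : R →+* S) {p e : ℕ} {I : Ideal R} {J : Ideal S}
    (h : I ≤ J.comap f) : FrobPow p e I ≤ (FrobPow p e J).comap f := by
  rw [FrobPow, Ideal.span_le]
  rintro _ ⟨a, ha, rfl⟩
  exact Ideal.subset_span ⟨f a, h ha, map_pow f a _⟩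

lemma frobPow_span {p : ℕ} (hp : p.Prime) [CharP R p] (e : ℕ) (s : Set R) :
    FrobPow p e (Ideal.span s) = Ideal.span ((fun a => a ^ p ^ e) '' s) := by
  have : ExpChar R p := ExpChar.prime hp
  apply le_antisymm
  · rw [FrobPow, Ideal.span_le]
    rintro _ ⟨a, ha, rfl⟩
    have h1 := Ideal.mem_map_of_mem (iterateFrobenius R p e) ha
    rw [Ideal.map_span, iterateFrobenius_def] at h1
    have h2 : (iterateFrobenius R p e : R → R) = fun a => a ^ p ^ e := by
      funext a; exact iterateFrobenius_def p e a
    rw [h2] at h1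
    exact h1
  · rw [Ideal.span_le]
    rintro _ ⟨a, ha, rfl⟩
    exact Ideal.subset_span ⟨a, Ideal.subset_span ha, rfl⟩

lemma frobPow_bot {p : ℕ} (hp : p.Prime) (e : ℕ) : FrobPow p e (⊥ : Ideal R) = ⊥ := by
  rw [eq_bot_iff, FrobPow, Ideal.span_le]
  rintro _ ⟨a, ha, rfl⟩
  rw [Ideal.mem_bot] at ha
  rw [ha, zero_pow (pow_pos hp.pos e).ne']
  exact zero_mem _

/-- Nilpotent elements belong to Frobenius closed ideals. -/
lemma nilp_mem {p : ℕ} (hp : p.Prime) {I : Ideal R} (h : FrobClosed p I) {r : R}
    (hr : IsNilpotent r) : r ∈ I := by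
  obtain ⟨n, hn⟩ := hr
  refine h r ⟨n, ?_⟩
  have : r ^ p ^ n = 0 := by
    have h1 : n ≤ p ^ n := (Nat.lt_pow_self hp.one_lt).le
    rw [← Nat.sub_add_cancel h1, pow_add, hn, mul_zero]
  rw [this]
  exact zero_mem _

variable [IsLocalRing R] [IsNoetherianRing R]

/-- The dimension is at most the number of generators of an ideal primary to the maximal ideal. -/
lemma dim_le {d : ℕ} (x : Fin d → R)
    (h : (Ideal.span (Set.range x)).radical = IsLocalRing.maximalIdeal R) :
    ringKrullDim R ≤ (d : WithBot ℕ∞) := by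
  classical
  rw [← IsLocalRing.maximalIdeal_height_eq_ringKrullDim]
  have h0 : ((Finset.univ.image x : Finset R) : Set R) = Set.range x := by simp
  have h1 : IsLocalRing.maximalIdeal R ∈
      (Ideal.span ((Finset.univ.image x : Finset R) : Set R)).minimalPrimes := by
    rw [h0, ← Ideal.radical_minimalPrimes, h, Ideal.minimalPrimes_eq_subsingleton_self]
    rfl
  have h2 := Ideal.height_le_card_of_mem_minimalPrimes_span_finset h1
  have h3 : (Finset.univ.image x).card ≤ d := by
    simpa using Finset.card_image_le (s := (Finset.univ : Finset (Fin d))) (f := x)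
  exact WithBot.coe_le_coe.2 (h2.trans (by exact_mod_cast h3))

/-- **Dimension at most one.** -/
theorem closed_of_dim_le_one {p : ℕ} (hp : p.Prime) [CharP R p] {d : ℕ} (hd : d ≤ 1)
    (x : Fin d → R) (hx : IsParam d x) (h : FrobClosed p (Ideal.span (Set.range x))) (e : ℕ) :
    FrobClosed p (FrobPow p e (Ideal.span (Set.range x))) := by
  rcases Nat.le_one_iff_eq_zero_or_eq_one.1 hd with rfl | rfl
  · have h0 : Ideal.span (Set.range x) = ⊥ := by
      rw [Set.range_eq_empty, Ideal.span_empty]
    rw [h0] at h ⊢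
    rwa [frobPow_bot hp]
  · obtain ⟨hdim, hrad⟩ := hx
    have hr : Set.range x = {x 0} := by
      ext r
      simp only [Set.mem_range, Set.mem_singleton_iff]
      constructor
      · rintro ⟨i, rfl⟩
        rw [Subsingleton.elim i 0]
      · rintro rfl
        exact ⟨0, rfl⟩
    rw [hr] at h hrad ⊢
    set y := x 0 with hy
    -- `y` belongs to no minimal prime
    have hmin : ∀ P ∈ minimalPrimes R, y ∉ P := by
      intro P hP hyP
      have hPp : P.IsPrime := hP.1.1
      have h1 : IsLocalRing.maximalIdeal R ≤ P := by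
        rw [← hrad]
        refine (Ideal.IsPrime.radical_le_iff hPp).2 ?_
        rw [Ideal.span_le, Set.singleton_subset_iff]
        exact hyP
      have h2 : P = IsLocalRing.maximalIdeal R :=
        le_antisymm (IsLocalRing.le_maximalIdeal hPp.ne_top) h1
      have h3 : (IsLocalRing.maximalIdeal R).height = 0 := by
        rw [Ideal.height_eq_zero_iff, ← h2]
        exact hP
      rw [← IsLocalRing.maximalIdeal_height_eq_ringKrullDim, h3] at hdim
      exact absurd hdim (by decide)
    have hnil : ∀ a : R, (∀ P ∈ minimalPrimes R, a ∈ P) → IsNilpotent a := by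
      intro a ha
      have h1 : a ∈ sInf (minimalPrimes R) := by
        rw [Ideal.mem_sInf]
        exact fun {P} hP => ha P hP
      have h2 : sInf (minimalPrimes R) = nilradical R := by
        rw [minimalPrimes_eq_minimals, nilradical]
        have := Ideal.sInf_minimalPrimes (I := (⊥ : Ideal R))
        rw [minimalPrimes] at *
        simpa [minimalPrimes_eq_minimals] using this
      rw [h2] at h1
      exact mem_nilradical.1 h1
    -- the ring is reduced
    have hN : nilradical R = ⊥ := by
      refine Submodule.eq_bot_of_le_smul_of_le_jacobson_bot (IsLocalRing.maximalIdeal R)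
        (nilradical R) (IsNoetherian.noetherian _) ?_ (IsLocalRing.maximalIdeal_le_jacobson _)
      intro n hn
      have h1 : n ∈ Ideal.span {y} := nilp_mem hp h (mem_nilradical.1 hn)
      obtain ⟨a, rfl⟩ := Ideal.mem_span_singleton'.1 h1
      have h2 : IsNilpotent a := by
        refine hnil a fun P hP => ?_
        have hPp : P.IsPrime := hP.1.1
        have h3 : a * y ∈ P := nilradical_le_prime P hn
        exact (hPp.mem_or_mem h3).resolve_right (hmin P hP)
      rw [smul_eq_mul, mul_comm a y]
      refine Ideal.mul_mem_mul ?_ (mem_nilradical.2 h2)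
      rw [← hrad]
      exact Ideal.le_radical (Ideal.mem_span_singleton_self y)
    have hcancel : ∀ a b : R, y * a = y * b → a = b := by
      intro a b hab
      have h1 : IsNilpotent (a - b) := by
        refine hnil _ fun P hP => ?_
        have hPp : P.IsPrime := hP.1.1
        have h3 : y * (a - b) ∈ P := by
          rw [mul_sub, hab, sub_self]
          exact zero_mem _
        exact (hPp.mem_or_mem h3).resolve_left (hmin P hP)
      have h2 : a - b ∈ nilradical R := mem_nilradical.2 h1
      rw [hN, Ideal.mem_bot] at h2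
      exact sub_eq_zero.1 h2
    have hcancel' : ∀ (k : ℕ) (a b : R), y ^ k * a = y ^ k * b → a = b := by
      intro k
      induction k with
      | zero => intro a b h; simpa using h
      | succ k ih =>
        intro a b h
        rw [pow_succ, mul_assoc, mul_assoc] at h
        exact hcancel _ _ (ih _ _ h)
    have key : ∀ (k : ℕ) (r : R) (e' : ℕ), r ^ p ^ e' ∈ Ideal.span {y ^ (k * p ^ e')} →
        r ∈ Ideal.span {y ^ k} := by
      intro k
      induction k with
      | zero => intro r e' _; simp
      | succ k ih =>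
        intro r e' hr'
        have h1 : r ∈ Ideal.span {y} := by
          refine h r ⟨e', ?_⟩
          rw [frobPow_span hp, Set.image_singleton]
          refine Ideal.span_singleton_le_span_singleton.2 ?_ hr'
          exact pow_dvd_pow y (Nat.le_mul_of_pos_left _ (Nat.succ_pos k))
        obtain ⟨s, rfl⟩ := Ideal.mem_span_singleton'.1 h1
        obtain ⟨c, hc⟩ := Ideal.mem_span_singleton'.1 hr'
        have h2 : s ^ p ^ e' ∈ Ideal.span {y ^ (k * p ^ e')} := by
          refine Ideal.mem_span_singleton'.2 ⟨c, ?_⟩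
          refine hcancel' (p ^ e') _ _ ?_
          have h3 : y ^ p ^ e' * (c * y ^ (k * p ^ e')) = c * y ^ ((k + 1) * p ^ e') := by
            rw [add_mul, one_mul, pow_add]
            ring
          rw [h3, hc, mul_pow]
          ring
        obtain ⟨c', hc'⟩ := Ideal.mem_span_singleton'.1 (ih s e' h2)
        exact Ideal.mem_span_singleton'.2 ⟨c', by rw [← hc', pow_succ]; ring⟩
    rintro r ⟨e', he'⟩
    rw [frobPow_span hp, Set.image_singleton] at he' ⊢
    rw [frobPow_span hp, Set.image_singleton] at he'
    refine key (p ^ e) r e' ?_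
    rwa [pow_mul]

end general

/-! ### the example in dimension two -/

section

open MvPolynomial

variable (k : Type u) [Field k]

/-- the ideal of the origin -/
noncomputable def m0 : Ideal (MvPolynomial (Fin 3) k) :=
  RingHom.ker (constantCoeff : MvPolynomial (Fin 3) k →+* k)

instance : (m0 k).IsMaximal :=
  RingHom.ker_isMaximal_of_surjective _ (fun a => ⟨C a, by simp⟩)

lemma m0_le : m0 k ≤ Ideal.span {(X 0 : MvPolynomial (Fin 3) k), X 1, X 2} := by
  intro p hp
  have : ({(X 0 : MvPolynomial (Fin 3) k), X 1, X 2} : Set (MvPolynomial (Fin 3) k)) =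
      X '' (Set.univ : Set (Fin 3)) := by
    ext z; simp [Fin.exists_fin_succ, eq_comm]
  rw [this, mem_ideal_span_X_image]
  intro m hm
  by_contra hc
  have : m = 0 := by
    ext j
    by_contra hk
    exact hc ⟨j, trivial, hk⟩
  subst this
  exact (mem_support_iff.1 hm) hp

/-- the localization of the polynomial ring in three variables at the origin -/
abbrev P : Type u := Localization.AtPrime (m0 k)

/-- the ideal `(yz, x²z²)` -/
noncomputable def J : Ideal (P k) :=
  Ideal.span {algebraMap (MvPolynomial (Fin 3) k) (P k) (X 1 * X 2),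
    algebraMap (MvPolynomial (Fin 3) k) (P k) (X 0 ^ 2 * X 2 ^ 2)}

/-- the local ring `k[x,y,z]_(x,y,z) / (yz, x²z²)` -/
def R : Type u := P k ⧸ J k

noncomputable instance : CommRing (R k) := inferInstanceAs (CommRing (P k ⧸ J k))
noncomputable instance : Algebra k (R k) := inferInstanceAs (Algebra k (P k ⧸ J k))
instance : IsNoetherianRing (R k) := inferInstanceAs (IsNoetherianRing (P k ⧸ J k))

noncomputable def mk : P k →+* R k := Ideal.Quotient.mk (J k)

lemma mk_surj : Function.Surjective (mk k) := Ideal.Quotient.mk_surjective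

noncomputable def π : MvPolynomial (Fin 3) k →+* R k :=
  (mk k).comp (algebraMap (MvPolynomial (Fin 3) k) (P k))

noncomputable def x : R k := π k (X 0)
noncomputable def y : R k := π k (X 1)
noncomputable def z : R k := π k (X 2)

lemma yz : y k * z k = 0 := by
  rw [y, z, ← map_mul]
  exact Ideal.Quotient.eq_zero_iff_mem.2 (Ideal.subset_span (by simp))

lemma xz : x k ^ 2 * z k ^ 2 = 0 := by
  rw [x, z, ← map_pow, ← map_pow, ← map_mul]
  exact Ideal.Quotient.eq_zero_iff_mem.2 (Ideal.subset_span (by simp))

variable {k}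

lemma exists_hom (B : Type u) [CommRing B] [IsLocalRing B] [Algebra k B] (a b c : B)
    (ha : a ∈ IsLocalRing.maximalIdeal B) (hb : b ∈ IsLocalRing.maximalIdeal B)
    (hc : c ∈ IsLocalRing.maximalIdeal B) (h1 : b * c = 0) (h2 : a ^ 2 * c ^ 2 = 0) :
    ∃ φ : R k →+* B, φ (x k) = a ∧ φ (y k) = b ∧ φ (z k) = c := by
  let ψ : MvPolynomial (Fin 3) k →+* B :=
    (aeval ![a, b, c] : MvPolynomial (Fin 3) k →ₐ[k] B)
  have hu : ∀ s : (m0 k).primeCompl, IsUnit (ψ s) := by
    intro s
    have h0 : constantCoeff (s : MvPolynomial (Fin 3) k) ≠ 0 := s.2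
    have h3 : (s : MvPolynomial (Fin 3) k) - C (constantCoeff (s : MvPolynomial (Fin 3) k)) ∈
        m0 k := by
      simp [m0, RingHom.mem_ker]
    have h4 : ψ ((s : MvPolynomial (Fin 3) k) - C (constantCoeff (s : MvPolynomial (Fin 3) k))) ∈
        IsLocalRing.maximalIdeal B := by
      have : Ideal.span {(X 0 : MvPolynomial (Fin 3) k), X 1, X 2} ≤
          (IsLocalRing.maximalIdeal B).comap ψ := by
        rw [Ideal.span_le]
        rintro _ (rfl | rfl | rfl) <;> simpa [ψ]
      exact this (m0_le k h3)
    by_contra hn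
    have h5 : ψ s ∈ IsLocalRing.maximalIdeal B := hn
    have h6 := sub_mem h5 h4
    rw [← map_sub, sub_sub_cancel] at h6
    exact h6 ((h0.isUnit.map C).map ψ)
  refine ⟨Ideal.Quotient.lift (J k) (IsLocalization.lift hu) ?_, ?_, ?_, ?_⟩
  · intro p hp
    have : J k ≤ RingHom.ker (IsLocalization.lift (S := P k) hu) := by
      rw [J, Ideal.span_le]
      rintro _ (rfl | rfl)
      · simpa [RingHom.mem_ker, ψ] using h1
      · simpa [RingHom.mem_ker, ψ] using h2
    exact this hp
  · exact (IsLocalization.lift_eq hu _).trans (by simp [ψ])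
  · exact (IsLocalization.lift_eq hu _).trans (by simp [ψ])
  · exact (IsLocalization.lift_eq hu _).trans (by simp [ψ])

instance : Nontrivial (R k) := by
  obtain ⟨φ, -⟩ := exists_hom (k := k) k 0 0 0 (by simp) (by simp) (by simp) (by simp) (by simp)
  exact φ.domain_nontrivial

instance : IsLocalRing (R k) := IsLocalRing.of_surjective' _ (mk_surj k)

lemma max_eq : IsLocalRing.maximalIdeal (R k) = Ideal.span {x k, y k, z k} := by
  apply le_antisymm
  · intro r hr
    obtain ⟨p, rfl⟩ := mk_surj k r
    have hp : p ∈ IsLocalRing.maximalIdeal (P k) := fun h => hr (h.map _)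
    rw [← Localization.AtPrime.map_eq_maximalIdeal] at hp
    have h1 := Ideal.mem_map_of_mem (mk k) hp
    rw [Ideal.map_map] at h1
    have h2 := Ideal.map_mono (f := π k) (m0_le k) h1
    rw [Ideal.map_span] at h2
    simpa [Set.image_insert_eq, x, y, z] using h2
  · obtain ⟨φ, h1, h2, h3⟩ := exists_hom (k := k) k 0 0 0 (by simp) (by simp) (by simp) (by simp)
      (by simp)
    rw [Ideal.span_le]
    rintro _ (rfl | rfl | rfl) h
    · exact not_isUnit_zero (h1 ▸ h.map φ)
    · exact not_isUnit_zero (h2 ▸ h.map φ)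
    · exact not_isUnit_zero (h3 ▸ h.map φ)

end

section base

variable (k : Type u) [Field k]

noncomputable def v : Fin 2 → R k := ![x k, y k - z k]

lemma range_v : Set.range (v k) = {x k, y k - z k} := by
  ext r; simp [v, eq_comm, or_comm]

noncomputable def I : Ideal (R k) := Ideal.span {x k, y k - z k}

variable {k}

lemma xI : x k ∈ I k := Ideal.subset_span (by simp)
lemma dI : y k - z k ∈ I k := Ideal.subset_span (by simp)
lemma y2I : y k ^ 2 ∈ I k := by
  have : y k ^ 2 = y k * (y k - z k) := by linear_combination yz k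
  rw [this]; exact (I k).mul_mem_left _ dI

lemma xm : x k ∈ IsLocalRing.maximalIdeal (R k) := by
  rw [max_eq]; exact Ideal.subset_span (by simp)
lemma ym : y k ∈ IsLocalRing.maximalIdeal (R k) := by
  rw [max_eq]; exact Ideal.subset_span (by simp)
lemma zm : z k ∈ IsLocalRing.maximalIdeal (R k) := by
  rw [max_eq]; exact Ideal.subset_span (by simp)

lemma I_le : I k ≤ IsLocalRing.maximalIdeal (R k) := by
  rw [I, Ideal.span_le]
  rintro _ (rfl | rfl)
  · exact xm
  · exact sub_mem ym zm

lemma radI : (I k).radical = IsLocalRing.maximalIdeal (R k) := by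
  apply le_antisymm
  · exact (Ideal.IsPrime.radical_le_iff inferInstance).2 I_le
  · have hy : y k ∈ (I k).radical := ⟨2, y2I⟩
    rw [max_eq, Ideal.span_le]
    rintro _ (rfl | rfl | rfl)
    · exact Ideal.le_radical xI
    · exact hy
    · have := sub_mem hy (Ideal.le_radical dI)
      rwa [sub_sub_cancel] at this

lemma Xmem (B : Type u) [CommRing B] [IsLocalRing B] :
    (PowerSeries.X : PowerSeries B) ∈ IsLocalRing.maximalIdeal (PowerSeries B) := by
  intro h
  simpa using PowerSeries.isUnit_iff_constantCoeff.1 h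

lemma dimR : ringKrullDim (R k) = ((2 : ℕ) : WithBot ℕ∞) := by
  apply le_antisymm
  · refine dim_le (v k) ?_
    rw [range_v]
    exact radI
  · obtain ⟨φ, h1, h2, h3⟩ := exists_hom (k := k) (PowerSeries (PowerSeries k))
      (PowerSeries.C PowerSeries.X)
      PowerSeries.X 0 (by
        intro h
        have := PowerSeries.isUnit_iff_constantCoeff.1 h
        simp only [PowerSeries.constantCoeff_C] at this
        exact Xmem k this) (Xmem _) (by simp) (by simp) (by simp)
    let φ1 : R k →+* PowerSeries k := (PowerSeries.map PowerSeries.constantCoeff).comp φ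
    let φ2 : R k →+* k := (PowerSeries.constantCoeff).comp φ1
    let p0 : PrimeSpectrum (R k) := ⟨RingHom.ker φ, RingHom.ker_isPrime _⟩
    let p1 : PrimeSpectrum (R k) := ⟨RingHom.ker φ1, RingHom.ker_isPrime _⟩
    let p2 : PrimeSpectrum (R k) := ⟨RingHom.ker φ2, RingHom.ker_isPrime _⟩
    have l1 : p0 < p1 := by
      refine lt_of_le_of_ne (fun r hr => ?_) (fun h => ?_)
      · have : φ r = 0 := hr
        change PowerSeries.map PowerSeries.constantCoeff (φ r) = 0
        rw [this, map_zero]
      · have : x k ∈ p1.asIdeal := by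
          change PowerSeries.map PowerSeries.constantCoeff (φ (x k)) = 0
          rw [h1]; simp
        rw [← h] at this
        have h4 : φ (x k) = 0 := this
        rw [h1] at h4
        have := congrArg PowerSeries.constantCoeff h4
        simp [PowerSeries.X_ne_zero] at this
    have e1 : φ1 (y k) = PowerSeries.X := by
      change PowerSeries.map PowerSeries.constantCoeff (φ (y k)) = _
      rw [h2]; simp
    have l2 : p1 < p2 := by
      refine lt_of_le_of_ne (fun r hr => ?_) (fun h => ?_)
      · have : φ1 r = 0 := hr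
        change PowerSeries.constantCoeff (φ1 r) = 0
        rw [this, map_zero]
      · have : y k ∈ p2.asIdeal := by
          change PowerSeries.constantCoeff (φ1 (y k)) = 0
          rw [e1]; simp
        rw [← h] at this
        have h4 : φ1 (y k) = 0 := this
        rw [e1] at h4
        exact PowerSeries.X_ne_zero h4
    refine Order.le_krullDim_iff.2 ⟨LTSeries.mk 2 ![p0, p1, p2] ?_, rfl⟩
    rw [Fin.strictMono_iff_lt_succ]
    intro i
    fin_cases i
    · exact l1
    · exact l2

variable {p : ℕ}

lemma frobPow_I (hp : p.Prime) [CharP k p] (e : ℕ) :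
    FrobPow p e (I k) = Ideal.span {x k ^ p ^ e, (y k - z k) ^ p ^ e} := by
  have : CharP (R k) p := charP_of_injective_algebraMap (algebraMap k (R k)).injective p
  rw [I, frobPow_span hp, Set.image_pair]

lemma closed (hp : p.Prime) [CharP k p] : FrobClosed p (I k) := by
  rintro r ⟨e, h⟩
  have : CharP (R k) p := charP_of_injective_algebraMap (algebraMap k (R k)).injective p
  have : ExpChar (R k) p := ExpChar.prime hp
  have hq : (p : ℕ) ^ e ≠ 0 := (pow_pos hp.pos e).ne'
  have hm : r ∈ IsLocalRing.maximalIdeal (R k) := by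
    apply Ideal.IsPrime.mem_of_pow_mem inferInstance (p ^ e)
    rw [frobPow_I hp] at h
    refine (Ideal.span_le.2 ?_ : _ ≤ IsLocalRing.maximalIdeal (R k)) h
    rintro _ (rfl | rfl)
    · exact Ideal.pow_mem_of_mem _ xm _ (Nat.pos_of_ne_zero hq)
    · exact Ideal.pow_mem_of_mem _ (sub_mem ym zm) _ (Nat.pos_of_ne_zero hq)
  rw [max_eq] at hm
  obtain ⟨a, w, hw, rfl⟩ := Ideal.mem_span_insert.1 hm
  obtain ⟨b, c, rfl⟩ := Ideal.mem_span_pair.1 hw
  have hi : a * x k - c * (y k - z k) ∈ I k :=
    sub_mem ((I k).mul_mem_left _ xI) ((I k).mul_mem_left _ dI)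
  have e1 : a * x k + (b * y k + c * z k) =
      (a * x k - c * (y k - z k)) + (b + c) * y k := by ring
  rw [e1] at h ⊢
  by_cases hu : IsUnit (b + c)
  · exfalso
    have h2 : ((b + c) * y k) ^ p ^ e ∈ FrobPow p e (I k) := by
      rw [add_pow_expChar_pow] at h
      have h3 : (a * x k - c * (y k - z k)) ^ p ^ e ∈ FrobPow p e (I k) :=
        Ideal.subset_span ⟨_, hi, rfl⟩
      simpa using sub_mem h h3
    rw [mul_pow, Ideal.unit_mul_mem_iff_mem _ (hu.pow _), frobPow_I hp] at h2
    obtain ⟨α, β, hαβ⟩ := Ideal.mem_span_pair.1 h2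
    obtain ⟨φ, f1, f2, f3⟩ := exists_hom (k := k) (PowerSeries k) 0 PowerSeries.X 0 (by simp) (Xmem k)
      (by simp) (by simp) (by simp)
    obtain ⟨ψ, g1, g2, g3⟩ := exists_hom (k := k) (PowerSeries k) 0 0 PowerSeries.X (by simp) (by simp)
      (Xmem k) (by simp) (by simp)
    have a1 := congrArg φ hαβ
    have a2 := congrArg ψ hαβ
    simp only [map_add, map_mul, map_pow, map_sub, f1, f2, f3, g1, g2, g3, zero_pow hq, mul_zero,
      zero_add, sub_zero, zero_sub] at a1 a2
    have b1 : φ β = 1 := mul_right_cancel₀ (pow_ne_zero _ PowerSeries.X_ne_zero)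
      (a1.trans (one_mul _).symm)
    have b2 : ψ β = 0 := (mul_eq_zero.1 a2).resolve_right
      (pow_ne_zero _ (neg_ne_zero.2 PowerSeries.X_ne_zero))
    have hβ : β ∈ IsLocalRing.maximalIdeal (R k) := fun h => not_isUnit_zero (b2 ▸ h.map ψ)
    have : IsLocalRing.maximalIdeal (R k) ≤ (IsLocalRing.maximalIdeal (PowerSeries k)).comap φ := by
      rw [max_eq, Ideal.span_le]
      rintro _ (rfl | rfl | rfl)
      · simp [f1]
      · simpa [f2] using Xmem k
      · simp [f3]
    have h5 : φ β ∈ IsLocalRing.maximalIdeal (PowerSeries k) := this hβ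
    exact h5 (b1 ▸ isUnit_one)
  · refine add_mem hi ?_
    have hm : b + c ∈ IsLocalRing.maximalIdeal (R k) := hu
    rw [max_eq] at hm
    obtain ⟨a', w, hw, e2⟩ := Ideal.mem_span_insert.1 hm
    obtain ⟨b', c', rfl⟩ := Ideal.mem_span_pair.1 hw
    have : (b + c) * y k = a' * y k * x k + b' * y k ^ 2 := by
      rw [e2]; linear_combination c' * yz k
    rw [this]
    exact add_mem ((I k).mul_mem_left _ xI) ((I k).mul_mem_left _ y2I)

lemma dual_local (B : Type u) [CommRing B] [IsLocalRing B] : IsLocalRing (DualNumber B) := by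
  apply IsLocalRing.of_isUnit_or_isUnit_one_sub_self
  intro a
  simp only [TrivSqZeroExt.isUnit_iff_isUnit_fst, TrivSqZeroExt.fst_sub, TrivSqZeroExt.fst_one]
  exact IsLocalRing.isUnit_or_isUnit_one_sub_self _

lemma not_mem (hp : p.Prime) [CharP k p] {e : ℕ} (he : 1 ≤ e) :
    x k * z k ∉ FrobPow p e (I k) := by
  rw [frobPow_I hp]
  intro h
  obtain ⟨α, β, hαβ⟩ := Ideal.mem_span_pair.1 h
  have := dual_local k
  have := dual_local (DualNumber k)
  obtain ⟨φ, f1, f2, f3⟩ := exists_hom (k := k) (DualNumber (DualNumber k))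
    (TrivSqZeroExt.inl DualNumber.eps) 0 DualNumber.eps
    (by
      intro h
      have := TrivSqZeroExt.isUnit_iff_isUnit_fst.1 h
      have := TrivSqZeroExt.isUnit_iff_isUnit_fst.1 this
      simp at this)
    (by simp)
    (by
      intro h
      have := TrivSqZeroExt.isUnit_iff_isUnit_fst.1 h
      simp at this)
    (by simp) (by simp [sq])
  have a1 := congrArg φ hαβ
  have t1 : (TrivSqZeroExt.inl DualNumber.eps : DualNumber (DualNumber k)) ^ 2 = 0 := by
    rw [sq, ← TrivSqZeroExt.inl_mul]; simp
  have t2 : (DualNumber.eps : DualNumber (DualNumber k)) ^ 2 = 0 := by simp [sq]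
  have hq : 2 ≤ p ^ e := hp.two_le.trans (Nat.le_self_pow (by omega) p)
  have u1 : (TrivSqZeroExt.inl DualNumber.eps : DualNumber (DualNumber k)) ^ p ^ e = 0 := by
    rw [← Nat.sub_add_cancel hq, pow_add, t1, mul_zero]
  have u2 : (-DualNumber.eps : DualNumber (DualNumber k)) ^ p ^ e = 0 := by
    rw [← Nat.sub_add_cancel hq, pow_add, neg_sq, t2, mul_zero]
  simp only [map_add, map_mul, map_pow, map_sub, f1, f2, f3, zero_sub, u1, u2,
    mul_zero, add_zero] at a1
  have := congrArg (fun w => TrivSqZeroExt.snd (TrivSqZeroExt.snd w)) a1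
  simp at this

end base

/-! ### all dimensions -/

/-- The properties of the examples. -/
def Good (p d : ℕ) (S : Type u) [CommRing S] [IsLocalRing S] (x : Fin d → S) : Prop :=
  IsParam d x ∧ FrobClosed p (Ideal.span (Set.range x)) ∧
    ∃ w : S, w ^ p = 0 ∧ ∀ e, 1 ≤ e → w ∉ FrobPow p e (Ideal.span (Set.range x))

lemma Good.not_closed {p d : ℕ} {S : Type u} [CommRing S] [IsLocalRing S] {x : Fin d → S}
    (h : Good p d S x) {e : ℕ} (he : 1 ≤ e) :
    ¬ FrobClosed p (FrobPow p e (Ideal.span (Set.range x))) := by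
  obtain ⟨-, -, w, hw, hw2⟩ := h
  intro hc
  refine hw2 e he (hc w ⟨1, ?_⟩)
  rw [pow_one, hw]
  exact zero_mem _

theorem good_base (k : Type u) [Field k] {p : ℕ} (hp : p.Prime) [CharP k p] :
    Good p 2 (R k) (v k) := by
  refine ⟨⟨dimR, by rw [range_v]; exact radI⟩, by rw [range_v]; exact closed hp, x k * z k, ?_, ?_⟩
  · rw [← Nat.sub_add_cancel hp.two_le, pow_add, mul_pow (x k) (z k) 2, xz, mul_zero]
  · rw [range_v]
    exact fun e he => not_mem hp he

open PowerSeries in
theorem good_step {p d : ℕ} {S : Type u} [CommRing S] [IsLocalRing S] [IsNoetherianRing S]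
    {x : Fin d → S} (h : Good p d S x) :
    Good p (d + 1) (PowerSeries S) (Fin.snoc (fun i => (C (x i) : PowerSeries S)) X) := by
  obtain ⟨⟨hdim, hrad⟩, hcl, w, hw, hw2⟩ := h
  have hI : Ideal.span (Set.range (Fin.snoc (fun i => (C (x i) : PowerSeries S)) X :
      Fin (d + 1) → PowerSeries S)) =
      (Ideal.span (Set.range x)).comap (constantCoeff (R := S)) := by
    apply le_antisymm
    · rw [Ideal.span_le]
      rintro _ ⟨i, rfl⟩
      refine Fin.lastCases ?_ (fun i => ?_) i
      · simp
      · simp only [Fin.snoc_castSucc, SetLike.mem_coe, Ideal.mem_comap, constantCoeff_C]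
        exact Ideal.subset_span ⟨i, rfl⟩
    · intro f hf
      rw [Ideal.mem_comap] at hf
      have h1 : f = C (constantCoeff f) + X * PowerSeries.mk fun n => coeff (n + 1) f := by
        rw [add_comm, mul_comm]
        exact eq_shift_mul_X_add_const f
      rw [h1]
      refine add_mem ?_ (Ideal.mul_mem_right _ _ (Ideal.subset_span ⟨Fin.last d, by simp⟩))
      have h2 := Ideal.mem_map_of_mem (C (R := S)) hf
      rw [Ideal.map_span] at h2
      refine Ideal.span_mono ?_ h2
      rintro _ ⟨_, ⟨i, rfl⟩, rfl⟩
      exact ⟨i.castSucc, by simp⟩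
  have hsurj : Function.Surjective (constantCoeff (R := S)) := fun a => ⟨C a, by simp⟩
  have hmax : (IsLocalRing.maximalIdeal S).comap (constantCoeff (R := S)) =
      IsLocalRing.maximalIdeal (PowerSeries S) :=
    IsLocalRing.eq_maximalIdeal (Ideal.comap_isMaximal_of_surjective _ hsurj)
  have hrad' : (Ideal.span (Set.range (Fin.snoc (fun i => (C (x i) : PowerSeries S)) X :
      Fin (d + 1) → PowerSeries S))).radical = IsLocalRing.maximalIdeal (PowerSeries S) := by
    rw [hI, ← Ideal.comap_radical, hrad, hmax]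
  refine ⟨⟨le_antisymm (dim_le _ hrad') ?_, hrad'⟩, ?_, C w, ?_, ?_⟩
  · have h1 := ringKrullDim_succ_le_ringKrullDim_powerseries (R := S)
    rw [hdim] at h1
    exact_mod_cast h1
  · rintro r ⟨e, hr⟩
    rw [hI] at hr ⊢
    rw [Ideal.mem_comap]
    refine hcl _ ⟨e, ?_⟩
    rw [← map_pow]
    exact frobPow_mono (constantCoeff (R := S)) le_rfl hr
  · rw [← map_pow, hw, map_zero]
  · intro e he hmem
    rw [hI] at hmem
    have := frobPow_mono (constantCoeff (R := S)) le_rfl hmem
    rw [Ideal.mem_comap, constantCoeff_C] at this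
    exact hw2 e he this

theorem exists_good (k : Type u) [Field k] {p : ℕ} (hp : p.Prime) [CharP k p] (n : ℕ) :
    ∃ (S : Type u) (_ : CommRing S) (_ : IsLocalRing S) (_ : IsNoetherianRing S)
      (_ : Algebra k S) (x : Fin (n + 2) → S), Good p (n + 2) S x := by
  induction n with
  | zero => exact ⟨R k, inferInstance, inferInstance, inferInstance, inferInstance, v k,
      good_base k hp⟩
  | succ n ih =>
    obtain ⟨S, _, _, _, _, x, hx⟩ := ih
    exact ⟨PowerSeries S, inferInstance, inferInstance, inferInstance, inferInstance, _,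
      good_step hx⟩

/-- **Dichotomy by the dimension.** Let `p` be a prime number.

(1) If `R` is a Noetherian local ring of characteristic `p` and dimension `d ≤ 1` and
`I = (x_1, …, x_d)` is a Frobenius closed parameter ideal of `R`, then all the Frobenius powers
`I^[p^e]` are Frobenius closed.

(2) For every `d ≥ 2` and every field `k` of characteristic `p` there are a Noetherian local
`k`-algebra `R` of dimension `d` and a Frobenius closed parameter ideal `I = (x_1, …, x_d)` of `R`
such that `I^[p^e]` is not Frobenius closed for any `e ≥ 1`. In fact one element `w` with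
`w^p = 0` is outside of all these ideals `I^[p^e]`, `e ≥ 1`. -/
theorem result (p : ℕ) (hp : p.Prime) (d : ℕ) :
    (d ≤ 1 → ∀ (R : Type u) [CommRing R] [IsLocalRing R] [IsNoetherianRing R] [CharP R p]
      (x : Fin d → R), IsParam d x → FrobClosed p (Ideal.span (Set.range x)) →
        ∀ e : ℕ, FrobClosed p (FrobPow p e (Ideal.span (Set.range x)))) ∧
    (2 ≤ d → ∀ (k : Type u) [Field k] [CharP k p],
      ∃ (R : Type u) (_ : CommRing R) (_ : IsLocalRing R) (_ : IsNoetherianRing R)
        (_ : Algebra k R) (x : Fin d → R), IsParam d x ∧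
          FrobClosed p (Ideal.span (Set.range x)) ∧
          (∃ w : R, w ^ p = 0 ∧ ∀ e, 1 ≤ e → w ∉ FrobPow p e (Ideal.span (Set.range x))) ∧
          ∀ e, 1 ≤ e → ¬ FrobClosed p (FrobPow p e (Ideal.span (Set.range x)))) := by
  refine ⟨fun hd R _ _ _ _ x hx h e => closed_of_dim_le_one hp hd x hx h e, fun hd k _ _ => ?_⟩
  obtain ⟨n, rfl⟩ : ∃ n, d = n + 2 := ⟨d - 2, by omega⟩
  obtain ⟨S, i1, i2, i3, i4, x, hx⟩ := exists_good k hp n
  exact ⟨S, i1, i2, i3, i4, x, hx.1, hx.2.1, hx.2.2, fun e he => hx.not_closed he⟩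

end Pool.Agent.Results.MP_a45f4e_ag.DimensionDichotomy
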